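import Pool.Agent.Lib.MP_a60258_s6.Iface

/-!
# Module GLU: glued half graphs are labelled graphs
-/

open MvPolynomial Finset

namespace A602.S6.H30

lemma zipWith_ofFn' {α β γ : Type} {k : ℕ} (f : α → β → γ) (w : Fin k → α) (w' : Fin k → β) :
    List.zipWith f (List.ofFn w) (List.ofFn w') = List.ofFn fun t => f (w t) (w' t) := by
  apply List.ext_getElem
  · simp
  · intro i h1 h2
    simp

lemma coe_ofFn_eq {α : Type} {k : ℕ} (g : Fin k → α) :
    ((List.ofFn g : List α) : Multiset α) = ∑ t, ({g t} : Multiset α) := by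
  rw [← Fin.univ_val_map, ← Multiset.sum_map_singleton ((Finset.univ : Finset (Fin k)).val.map g),
    Multiset.map_map]
  rfl

lemma coe_word {α V : Type} [Fintype α] [DecidableEq α] {k : ℕ} (e : α → V) (u : Fin k → α) :
    ((List.ofFn fun t => e (u t) : List V) : Multiset V) = ∑ a, ct u a • ({e a} : Multiset V) := by
  rw [coe_ofFn_eq, ← Finset.sum_fiberwise Finset.univ u fun t => ({e (u t)} : Multiset V)]
  refine Finset.sum_congr rfl fun a _ => ?_
  rw [Finset.sum_congr rfl (g := fun _ => ({e a} : Multiset V))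
    (fun t ht => by rw [(Finset.mem_filter.1 ht).2]), Finset.sum_const]
  rfl

lemma coe_inL (m : Fin 3 → ℕ) (f : Fin 3 × Fin 3 → Fin 6 × Fin 6) :
    (((inL m).map f : List (Fin 6 × Fin 6)) : Multiset (Fin 6 × Fin 6))
      = ∑ i, m i • ({f (in3 i)} : Multiset (Fin 6 × Fin 6)) := by
  rw [Fin.sum_univ_three]
  simp only [inL, List.map_append, List.map_replicate, ← Multiset.coe_add, Multiset.coe_replicate,
    Multiset.nsmul_singleton, in3]
  simp [add_assoc]

lemma glue_coe (k : ℕ) (w w' : Fin k → Fin 3) (m m' : Fin 3 → ℕ) :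
    ((glue (List.ofFn w) (List.ofFn w') (inL m) (inL m') : List (Fin 6 × Fin 6)) :
      Multiset (Fin 6 × Fin 6)) = ms ends (mk m m' (ct fun t => (w t, w' t))) := by
  unfold glue ms mk
  rw [Fintype.sum_sum_type, Fintype.sum_sum_type, zipWith_ofFn']
  simp only [← Multiset.coe_add, Sum.elim_inl, Sum.elim_inr]
  have h1 := coe_word (fun c : Fin 3 × Fin 3 => (inl c.1, inr c.2)) fun t => (w t, w' t)
  have h2 := coe_inL m (Prod.map inl inl)
  have h3 := coe_inL m' (Prod.map inr inr)
  simp only at h1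
  rw [h1, h2, h3]
  simp only [ends]
  abel

theorem glu (h1 : PvpStatement) : GluStatement := by
  intro S P k w w' m m'
  unfold Vx
  refine h1.1 (Fin 6) S _ _ _ ?_
  rw [← Multiset.coe_eq_coe, Multiset.coe_toList]
  exact glue_coe k w w' m m'

end A602.S6.H30
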